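import Pool.Agent.H.MP_ebc4cb_lc.Main
open Set Cardinal
namespace Pool.Agent.Results.MP_ebc4cb_lc.Exists

def IsPath {V : Type} (P : SimpleGraph V) : Prop :=
  ∃ r : V → V → Prop, IsWellOrder V r ∧
    ∀ v u, r u v → ∃ w, P.Adj w v ∧ r w v ∧ (u = w ∨ r u w)

def colourClass {K : Type} (c : Sym2 K → ℕ) (i : ℕ) : SimpleGraph K where
  Adj x y := x ≠ y ∧ c s(x, y) = i
  symm := ⟨fun _ _ h => ⟨h.1.symm, Sym2.eq_swap ▸ h.2⟩⟩
  loopless := ⟨fun _ h => h.1 rfl⟩

theorem result : ∃ κ : Cardinal.{0}, ℵ₀ ≤ κ ∧ ∀ K : Type, #K = κ → ∀ c : Sym2 K → ℕ,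
    ∃ (i : ℕ) (P : (colourClass c i).Subgraph), IsPath P.coe ∧ #P.verts = κ := by
  obtain ⟨V, hV, h⟩ := Pool.Agent.H.MP_ebc4cb_lc.main
  refine ⟨#V, hV, fun K hK c => ?_⟩
  obtain ⟨e⟩ : Nonempty (V ≃ K) := Cardinal.eq.mp hK.symm
  obtain ⟨i, W, _, _, g, hg, h1, h2⟩ := h (fun x y => c s(e x, e y))
    (fun x y => by rw [Sym2.eq_swap])
  have hinj : Function.Injective (e ∘ g) := e.injective.comp hg
  let q : W ≃ range (e ∘ g) := Equiv.ofInjective _ hinj
  refine ⟨i, (⊤ : (colourClass c i).Subgraph).induce (range (e ∘ g)), ?_, ?_⟩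
  · refine ⟨fun x y => q.symm x < q.symm y, ?_, ?_⟩
    · exact (RelEmbedding.preimage q.symm.toEmbedding (· < ·)).isWellOrder
    · intro v u huv
      obtain ⟨w, h3, h4, h5⟩ := h2 _ _ huv
      have h6 : (v : K) = e (g (q.symm v)) := (congrArg Subtype.val (q.apply_symm_apply v)).symm
      refine ⟨q w, ⟨(q w).2, v.2, ?_, ?_⟩, by simpa using h4, ?_⟩
      · intro h7
        have h8 : q w = v := Subtype.ext h7
        rw [← h8, q.symm_apply_apply] at h4
        exact lt_irrefl _ h4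
      · rw [h6]; exact h5
      · rcases h3.eq_or_lt with h3 | h3
        · exact Or.inl (h3 ▸ (q.apply_symm_apply u).symm)
        · exact Or.inr (by simpa using h3)
  · refine le_antisymm (hK ▸ mk_set_le _) (h1.trans ?_)
    exact (mk_congr q).le

end Pool.Agent.Results.MP_ebc4cb_lc.Exists
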